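import Mathlib

/-!
A self-shuffling word with exactly one steering word.
-/

namespace Pool.Agent.Results.MP_814ec7_co.Uniq

/-- `s` (value `true` = copy 1, `false` = copy 2) is the steering word of a splitting of the
naturals into two infinite sets `N^1 = {n | s n = true}`, `N^2 = {n | s n = false}` with
`x[N^1] = x[N^2] = x`; `Nat.nth p k` is the `k`-th element (from 0) of `{n | p n}`. -/
def IsSteering {A : Type} (x : ℕ → A) (s : ℕ → Bool) : Prop :=
  ∀ b : Bool, {n | s n = b}.Infinite ∧ ∀ k, x (Nat.nth (fun n => s n = b) k) = x k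

/-- The word. -/
def w (n : ℕ) : Fin 4 :=
  if n = 0 then 0 else if n = 1 then 1 else if n = 2 then 2 else if n = 3 then 3
  else if n = 4 then 0 else if n = 5 then 1
  else if n % 2 = 0 then w (n / 2 - 1) else w (n / 2 + 1)
termination_by n
decreasing_by all_goals omega

lemma w0 : w 0 = 0 := by rw [w]; simp
lemma w1 : w 1 = 1 := by rw [w]; simp
lemma w2 : w 2 = 2 := by rw [w]; simp
lemma w3 : w 3 = 3 := by rw [w]; simp
lemma w4 : w 4 = 0 := by rw [w]; simp
lemma w5 : w 5 = 1 := by rw [w]; simp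

lemma w_even (n k : ℕ) (h : n = 2 * k + 2) (hk : 2 ≤ k) : w n = w k := by
  rw [w, if_neg (by omega), if_neg (by omega), if_neg (by omega), if_neg (by omega),
    if_neg (by omega), if_neg (by omega), if_pos (by omega)]
  congr 1; omega

lemma w_odd (n k : ℕ) (h : n + 1 = 2 * k) (hk : 4 ≤ k) : w n = w k := by
  rw [w, if_neg (by omega), if_neg (by omega), if_neg (by omega), if_neg (by omega),
    if_neg (by omega), if_neg (by omega), if_neg (by omega)]
  congr 1; omega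

lemma w6 : w 6 = 2 := (w_even 6 2 rfl le_rfl).trans w2
lemma w7 : w 7 = 0 := (w_odd 7 4 rfl le_rfl).trans w4
lemma w8 : w 8 = 3 := (w_even 8 3 rfl (by norm_num)).trans w3
lemma w9 : w 9 = 1 := (w_odd 9 5 rfl (by norm_num)).trans w5
lemma w10 : w 10 = 0 := (w_even 10 4 rfl (by norm_num)).trans w4
lemma w11 : w 11 = 2 := (w_odd 11 6 rfl (by norm_num)).trans w6
lemma w12 : w 12 = 1 := (w_even 12 5 rfl (by norm_num)).trans w5
lemma w13 : w 13 = 0 := (w_odd 13 7 rfl (by norm_num)).trans w7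
lemma w14 : w 14 = 2 := (w_even 14 6 rfl (by norm_num)).trans w6
lemma w15 : w 15 = 3 := (w_odd 15 8 rfl (by norm_num)).trans w8
lemma w16 : w 16 = 0 := (w_even 16 7 rfl (by norm_num)).trans w7
lemma w17 : w 17 = 1 := (w_odd 17 9 rfl (by norm_num)).trans w9

/-- Factors of length five from position six on. -/
def FL : List (Fin 4 × Fin 4 × Fin 4 × Fin 4 × Fin 4) :=
  [(0, 1, 2, 0, 1), (0, 1, 2, 0, 3), (0, 1, 3, 0, 1), (0, 2, 1, 0, 2), (0, 2, 3, 0, 1),
   (0, 2, 3, 0, 2), (0, 3, 1, 0, 2), (0, 3, 1, 0, 3), (0, 3, 2, 0, 3), (1, 0, 2, 1, 0),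
   (1, 0, 2, 3, 0), (1, 0, 3, 1, 0), (1, 2, 0, 1, 2), (1, 2, 0, 3, 2), (1, 3, 0, 1, 2),
   (1, 3, 0, 1, 3), (2, 0, 1, 2, 0), (2, 0, 3, 1, 0), (2, 0, 3, 2, 0), (2, 1, 0, 2, 1),
   (2, 1, 0, 2, 3), (2, 3, 0, 1, 3), (2, 3, 0, 2, 3), (3, 0, 1, 2, 0), (3, 0, 1, 3, 0),
   (3, 0, 2, 3, 0), (3, 1, 0, 2, 1), (3, 1, 0, 3, 1), (3, 2, 0, 3, 1), (3, 2, 0, 3, 2)]

lemma FL_closed : ∀ t ∈ FL, (t.1, t.2.2.1, t.2.1, t.2.2.2.1, t.2.2.1) ∈ FL ∧
    (t.2.2.1, t.2.1, t.2.2.2.1, t.2.2.1, t.2.2.2.2) ∈ FL := by decide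

lemma fac (n : ℕ) (hn : 6 ≤ n) : (w n, w (n + 1), w (n + 2), w (n + 3), w (n + 4)) ∈ FL := by
  induction n using Nat.strong_induction_on with
  | _ n ih =>
    by_cases h : n < 14
    · interval_cases n <;>
        simp only [Nat.reduceAdd, w6, w7, w8, w9, w10, w11, w12, w13, w14, w15, w16, w17] <;>
        decide
    · rcases Nat.even_or_odd' n with ⟨m, hm | hm⟩
      · obtain ⟨k, rfl⟩ : ∃ k, m = k + 1 := ⟨m - 1, by omega⟩
        have := (FL_closed _ (ih k (by omega) (by omega))).1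
        rw [w_even n k (by omega) (by omega), w_odd (n + 1) (k + 2) (by omega) (by omega),
          w_even (n + 2) (k + 1) (by omega) (by omega),
          w_odd (n + 3) (k + 3) (by omega) (by omega),
          w_even (n + 4) (k + 2) (by omega) (by omega)]
        exact this
      · obtain ⟨k, rfl⟩ : ∃ k, m = k + 1 := ⟨m - 1, by omega⟩
        have := (FL_closed _ (ih k (by omega) (by omega))).2
        rw [w_odd n (k + 2) (by omega) (by omega), w_even (n + 1) (k + 1) (by omega) (by omega),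
          w_odd (n + 2) (k + 3) (by omega) (by omega),
          w_even (n + 3) (k + 2) (by omega) (by omega),
          w_odd (n + 4) (k + 4) (by omega) (by omega)]
        exact this

def W1 (a b : Fin 4) : Prop := (a, b) ∈ [((0 : Fin 4), (1 : Fin 4)), (0, 2), (0, 3)]
def W2 (a b c : Fin 4) : Prop := (a, b, c) ∈ [((0 : Fin 4), (1 : Fin 4), (2 : Fin 4)), (0, 1, 3)]
def W3 (a b c d : Fin 4) : Prop :=
  (a, b, c, d) ∈ [((0 : Fin 4), (1 : Fin 4), (2 : Fin 4), (0 : Fin 4)), (1, 2, 0, 1),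
    (1, 2, 0, 3), (2, 0, 1, 2)]
def W4 (a e : Fin 4) : Prop := a = 1 ∧ e = 2

instance (a b : Fin 4) : Decidable (W1 a b) := by unfold W1; infer_instance
instance (a b c : Fin 4) : Decidable (W2 a b c) := by unfold W2; infer_instance
instance (a b c d : Fin 4) : Decidable (W3 a b c d) := by unfold W3; infer_instance
instance (a b : Fin 4) : Decidable (W4 a b) := by unfold W4; infer_instance

lemma FL_facts : ∀ t ∈ FL, (t.1 ≠ t.2.1 ∧ t.1 ≠ t.2.2.1) ∧ (t.1 = 0 → W1 t.1 t.2.1) ∧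
    (W1 t.1 t.2.1 → t.2.1 = 1 → W2 t.1 t.2.1 t.2.2.1) ∧
    (W2 t.1 t.2.1 t.2.2.1 → t.2.2.1 = 2 → W3 t.1 t.2.1 t.2.2.1 t.2.2.2.1) ∧
    (W3 t.1 t.2.1 t.2.2.1 t.2.2.2.1 → t.2.2.2.1 = t.1 →
      W3 t.2.1 t.2.2.1 t.2.2.2.1 t.2.2.2.2) ∧
    (W3 t.1 t.2.1 t.2.2.1 t.2.2.2.1 → t.2.2.2.1 = 3 → W4 t.1 t.2.2.2.2) := by decide

/-- States off the true path. -/
def Bad (i j : ℕ) : Prop :=
  (5 ≤ i ∧ j = 0) ∨ (6 ≤ i ∧ ((j = 1 ∧ W1 (w i) (w (i + 1))) ∨
    (j = 2 ∧ W2 (w i) (w (i + 1)) (w (i + 2))) ∨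
    (j = 3 ∧ W3 (w i) (w (i + 1)) (w (i + 2)) (w (i + 3))) ∨
    (j = 4 ∧ W4 (w i) (w (i + 4)))))

lemma Bad_right (i j : ℕ) (h : Bad i j) (hx : w (i + j) = w i) : Bad (i + 1) j := by
  rcases h with ⟨h1, rfl⟩ | ⟨h6, h⟩
  · exact Or.inl ⟨by omega, rfl⟩
  obtain ⟨⟨f1, f2⟩, -, -, -, f5, -⟩ := FL_facts _ (fac i h6)
  rcases h with ⟨rfl, h⟩ | ⟨rfl, h⟩ | ⟨rfl, h⟩ | ⟨rfl, h⟩
  · exact absurd hx.symm f1
  · exact absurd hx.symm f2
  · exact Or.inr ⟨by omega, Or.inr (Or.inr (Or.inl ⟨rfl, f5 h hx⟩))⟩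
  · rw [h.1, h.2] at hx; exact absurd hx (by decide)

lemma Bad_up (i j : ℕ) (h : Bad i j) (hx : w (i + j) = w j) : Bad i (j + 1) := by
  rcases h with ⟨h1, rfl⟩ | ⟨h6, h⟩
  · rw [w0, Nat.add_zero] at hx
    have h6 : 6 ≤ i := by
      rcases Nat.lt_or_ge 5 i with h | h
      · exact h
      · obtain rfl : i = 5 := by omega
        rw [w5] at hx; exact absurd hx (by decide)
    obtain ⟨-, f2, -⟩ := FL_facts _ (fac i h6)
    exact Or.inr ⟨h6, Or.inl ⟨rfl, f2 hx⟩⟩
  obtain ⟨-, -, f3, f4, -, f6⟩ := FL_facts _ (fac i h6)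
  rcases h with ⟨rfl, h⟩ | ⟨rfl, h⟩ | ⟨rfl, h⟩ | ⟨rfl, h⟩
  · exact Or.inr ⟨h6, Or.inr (Or.inl ⟨rfl, f3 h (hx.trans w1)⟩)⟩
  · exact Or.inr ⟨h6, Or.inr (Or.inr (Or.inl ⟨rfl, f4 h (hx.trans w2)⟩))⟩
  · exact Or.inr ⟨h6, Or.inr (Or.inr (Or.inr ⟨rfl, f6 h (hx.trans w3)⟩))⟩
  · rw [h.2, w4] at hx; exact absurd hx (by decide)

lemma Bad_le (i j : ℕ) (h : Bad i j) : j ≤ 4 := by
  rcases h with ⟨-, rfl⟩ | ⟨-, ⟨rfl, -⟩ | ⟨rfl, -⟩ | ⟨rfl, -⟩ | ⟨rfl, -⟩⟩ <;> norm_num

/-- Number of earlier positions with value `b`. -/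
def cnt (s : ℕ → Bool) (b : Bool) (n : ℕ) : ℕ := Nat.count (fun m => s m = b) n

lemma cnt_succ (s : ℕ → Bool) (b : Bool) (n : ℕ) :
    cnt s b (n + 1) = cnt s b n + if s n = b then 1 else 0 := Nat.count_succ _ _

lemma cnt_add (s : ℕ → Bool) (n : ℕ) : cnt s true n + cnt s false n = n := by
  induction n with
  | zero => simp [cnt]
  | succ n ih => rw [cnt_succ, cnt_succ]; cases s n <;> simp <;> omega

lemma steer_step {A : Type} {x : ℕ → A} {s : ℕ → Bool} (h : IsSteering x s) (n : ℕ) :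
    x n = x (cnt s (s n) n) := by
  have := (h (s n)).2 (cnt s (s n) n)
  rw [cnt, Nat.nth_count (p := fun m => s m = s n) rfl] at this
  exact this

/-- The steering word. -/
def s0 (n : ℕ) : Bool := decide (n < 4 ∨ (7 ≤ n ∧ n % 2 = 1))

lemma cnt_s0 (n : ℕ) : cnt s0 true n = if n ≤ 4 then n else if n = 5 then 4 else n / 2 + 1 := by
  induction n with
  | zero => simp [cnt]
  | succ n ih =>
    rw [cnt_succ, ih]
    simp only [s0, decide_eq_true_eq]
    split_ifs <;> omega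

lemma s0_step (n : ℕ) : w n = w (cnt s0 (s0 n) n) := by
  have h1 := cnt_s0 n
  have h2 := cnt_add s0 n
  by_cases h : n < 4 ∨ (7 ≤ n ∧ n % 2 = 1)
  · have : s0 n = true := by simp only [s0, decide_eq_true_eq]; exact h
    rw [this]
    rcases h with h | h
    · rw [h1, if_pos h.le]
    · refine w_odd _ _ ?_ ?_ <;> split_ifs at h1 <;> omega
  · have : s0 n = false := by simp only [s0, decide_eq_false_iff_not]; exact h
    rw [this]
    by_cases h4 : n = 4
    · subst h4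
      have : cnt s0 false 4 = 0 := by simp at h1; omega
      rw [this, w4, w0]
    by_cases h5 : n = 5
    · subst h5
      have : cnt s0 false 5 = 1 := by simp at h1; omega
      rw [this, w5, w1]
    refine w_even _ _ ?_ ?_ <;> split_ifs at h1 <;> omega

lemma s0_steer : IsSteering w s0 := by
  intro b
  have hinf : {n | s0 n = b}.Infinite := by
    refine Set.infinite_of_forall_exists_gt fun a => ?_
    cases b
    · exact ⟨2 * a + 8, by simp only [Set.mem_setOf_eq, s0, decide_eq_false_iff_not]; omega,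
        by omega⟩
    · exact ⟨2 * a + 7, by simp only [Set.mem_setOf_eq, s0, decide_eq_true_eq]; omega, by omega⟩
  refine ⟨hinf, fun k => ?_⟩
  have hb : s0 (Nat.nth (fun n => s0 n = b) k) = b := Nat.nth_mem_of_infinite hinf k
  rw [s0_step, hb, cnt, Nat.count_nth_of_infinite hinf]

lemma dist1 (n : ℕ) (h : 2 ≤ n) : w n ≠ w (n + 1) ∧ w n ≠ w (n + 2) := by
  by_cases h6 : 6 ≤ n
  · exact (FL_facts _ (fac n h6)).1
  · interval_cases n <;> simp only [Nat.reduceAdd, w2, w3, w4, w5, w6, w7] <;> decide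

lemma s0_ne (n : ℕ) (h0 : n ≠ 0) (h4 : n ≠ 4) : w (cnt s0 true n) ≠ w (cnt s0 false n) := by
  have h1 := cnt_s0 n
  have h2 := cnt_add s0 n
  by_cases h : n < 4
  · rw [if_pos h.le] at h1
    have h3 : cnt s0 false n = 0 := by omega
    rw [h1, h3, w0]
    interval_cases n
    · exact absurd rfl h0
    · rw [w1]; decide
    · rw [w2]; decide
    · rw [w3]; decide
  by_cases h5 : n = 5
  · subst h5
    have e1 : cnt s0 true 5 = 4 := by simpa using h1
    have e2 : cnt s0 false 5 = 1 := by omega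
    rw [e1, e2, w4, w1]; decide
  rw [if_neg (by omega), if_neg h5] at h1
  rcases Nat.even_or_odd' n with ⟨m, hm | hm⟩
  · have e : cnt s0 true n = cnt s0 false n + 2 := by omega
    rw [e]; exact (dist1 _ (by omega)).2.symm
  · have e : cnt s0 true n = cnt s0 false n + 1 := by omega
    rw [e]; exact (dist1 _ (by omega)).1.symm

lemma uniq (s : ℕ → Bool) (h0 : s 0 = true) (hs : IsSteering w s) : s = s0 := by
  have hbad : ∀ n, Bad (cnt s true n) (cnt s false n) →
      Bad (cnt s true (n + 1)) (cnt s false (n + 1)) := by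
    intro n hb
    have h1 := steer_step hs n
    have h2 := cnt_add s n
    rw [cnt_succ, cnt_succ]
    cases hsn : s n
    · rw [hsn] at h1
      simpa using Bad_up _ _ hb (by rw [h2]; exact h1)
    · rw [hsn] at h1
      simpa using Bad_right _ _ hb (by rw [h2]; exact h1)
  have hnb : ∀ n, ¬ Bad (cnt s true n) (cnt s false n) := by
    intro n hb
    have hall : ∀ m, Bad (cnt s true (n + m)) (cnt s false (n + m)) := by
      intro m
      induction m with
      | zero => exact hb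
      | succ m ih => exact hbad _ ih
    have hinf := (hs false).1
    have h5 : cnt s false (Nat.nth (fun m => s m = false) 5) = 5 :=
      Nat.count_nth_of_infinite hinf 5
    have hmono : cnt s false (Nat.nth (fun m => s m = false) 5) ≤
        cnt s false (n + Nat.nth (fun m => s m = false) 5) :=
      Nat.count_monotone _ (Nat.le_add_left _ _)
    have := Bad_le _ _ (hall (Nat.nth (fun m => s m = false) 5))
    omega
  funext n
  induction n using Nat.strong_induction_on with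
  | _ n ih =>
    have hc : ∀ b, cnt s b n = cnt s0 b n := by
      intro b
      simp only [cnt, Nat.count_eq_card_filter_range]
      congr 1
      refine Finset.filter_congr fun m hm => ?_
      rw [ih m (Finset.mem_range.1 hm)]
    by_contra hne
    by_cases hn0 : n = 0
    · subst hn0; exact hne (h0.trans (by decide))
    by_cases hn4 : n = 4
    · subst hn4
      have e0 : s0 4 = false := by decide
      have e1 : s 4 = true := by rw [e0] at hne; simpa using hne
      have e2 : cnt s0 true 4 = 4 := by simpa using cnt_s0 4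
      have e3 := cnt_add s 5
      have e4 : cnt s true 5 = 5 := by rw [cnt_succ, hc, e2, e1]; simp
      exact hnb 5 (Or.inl ⟨by omega, by omega⟩)
    have h1 := steer_step hs n
    have h2 := s0_step n
    rw [hc] at h1
    apply s0_ne n hn0 hn4
    cases h3 : s n <;> cases h4 : s0 n <;> rw [h3] at h1 hne <;> rw [h4] at h2 hne
    · exact absurd rfl hne
    · exact h2.symm.trans h1
    · exact h1.symm.trans h2
    · exact absurd rfl hne

theorem result : ∃ x : ℕ → Fin 4, ∃! s : ℕ → Bool, s 0 = true ∧ IsSteering x s :=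
  ⟨w, s0, ⟨by decide, s0_steer⟩, fun s hs => uniq s hs.1 hs.2⟩

end Pool.Agent.Results.MP_814ec7_co.Uniq
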